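import Mathlib

open Finset

namespace Pool.Agent.Results.MP_1ae31d_co.Yes

/-- Number of independent sets of size `k`. -/
noncomputable def f {α : Type} (M : Matroid α) (k : ℕ) : ℕ := {I : Set α | M.Indep I ∧ I.ncard = k}.ncard

/-- The reliability polynomial of a finite matroid, evaluated at `q`. -/
noncomputable def Rel {α : Type} (M : Matroid α) (q : ℂ) : ℂ :=
  ∑ k ∈ range (M.eRank.toNat + 1), (f M k : ℂ) * q ^ k * (1 - q) ^ (M.E.ncard - k)

/-- Every circuit has at least rank many elements. -/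
def Paving {α : Type} (M : Matroid α) : Prop := ∀ C, M.IsCircuit C → M.eRank ≤ C.encard

section algebra
variable {R : Type} [CommRing R]

def A (m : ℕ) (w : R) : ℕ → R
  | 0 => 0
  | r + 1 => (w - 1) * (A m w r + m.choose r)

lemma A_pascal (m : ℕ) (w : R) (r : ℕ) : A (m + 1) w (r + 1) = A m w (r + 1) + A m w r := by
  induction r with
  | zero => simp [A]
  | succ r ih => rw [A, ih, Nat.choose_succ_succ]; simp only [A]; push_cast; ring

def U (m : ℕ) (w : R) (r : ℕ) : R := A m w r + m.choose r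

lemma U_pascal (m : ℕ) (w : R) (r : ℕ) : U (m + 1) w (r + 1) = U m w (r + 1) + U m w r := by
  simp only [U, A_pascal, Nat.choose_succ_succ]; push_cast; ring

lemma U_succ (m : ℕ) (w : R) (r : ℕ) : U (m + 1) w (r + 1) = w * U m w r + m.choose (r + 1) := by
  rw [U_pascal]; simp only [U, A]; ring

lemma U_zero (m : ℕ) (w : R) : U m w 0 = 1 := by simp [U, A]

lemma U_self (w : R) (r : ℕ) : U r w r = w ^ r := by
  induction r with
  | zero => simp [U_zero]
  | succ r ih => rw [U_succ, ih]; simp [pow_succ']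

lemma U_one (w : R) (r : ℕ) : (1 - w) * U (r + 1) w r = 1 - w ^ (r + 1) := by
  induction r with
  | zero => simp [U_zero]
  | succ r ih => rw [U_pascal, U_self, mul_add, ih]; ring

lemma A_cast (m : ℕ) (x : ℝ) (r : ℕ) : ((A m x r : ℝ) : ℂ) = A m (x : ℂ) r := by
  induction r with
  | zero => simp [A]
  | succ r ih => simp only [A]; push_cast; rw [ih]

lemma pascal_pos (g : ℕ → ℕ → ℝ) (hp : ∀ m r, g (m + 1) (r + 1) = g m (r + 1) + g m r)
    (h0 : ∀ m, g m 0 = 0) (h2 : ∀ r, 0 < g (r + 3) (r + 1)) (n r : ℕ) :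
    0 < g (n + r + 3) (r + 1) := by
  induction n generalizing r with
  | zero => simpa using h2 r
  | succ n ih =>
    induction r with
    | zero => rw [show n + 1 + 0 + 3 = (n + 0 + 3) + 1 by ring, hp, h0]; simpa using ih 0
    | succ r ih2 =>
      rw [show n + 1 + (r + 1) + 3 = (n + (r + 1) + 3) + 1 by ring, hp]
      have := ih (r + 1)
      rw [show n + 1 + r + 3 = n + (r + 1) + 3 by ring] at ih2
      linarith

lemma real_case {x : ℝ} (h1 : -1 < x) (h2 : x < 1) (n r : ℕ) :
    0 < U (n + r + 3) x (r + 1) - U (n + r + 3) (-1 : ℝ) (r + 1) := by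
  refine pascal_pos (fun m r => U m x r - U m (-1 : ℝ) r) (fun m r => by simp only [U_pascal]; ring)
    (fun m => by simp [U_zero]) (fun r => ?_) n r
  have step : ∀ k, U (k + 2) x k - U (k + 2) (-1 : ℝ) k <
      U (k + 4) x (k + 2) - U (k + 4) (-1 : ℝ) (k + 2) := by
    intro k
    rw [U_pascal (k + 3), U_pascal (k + 2) _ k, U_pascal (k + 3), U_pascal (k + 2) _ k]
    have a1 := U_one x (k + 1)
    have a2 := U_one x (k + 2)
    have a3 := U_one (-1 : ℝ) (k + 1)
    have a4 := U_one (-1 : ℝ) (k + 2)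
    have a5 : x ^ (k + 2) < 1 :=
      (le_abs_self _).trans_lt (by
        rw [abs_pow]; exact pow_lt_one₀ (abs_nonneg _) (abs_lt.mpr ⟨h1, h2⟩) (by omega))
    have a6 : (1 - x) * (U (k + 2) x (k + 1) + U (k + 3) x (k + 2) - 1) =
        (1 + x) * (1 - x ^ (k + 2)) := by linear_combination a1 + a2
    have a7 : 0 < U (k + 2) x (k + 1) + U (k + 3) x (k + 2) - 1 :=
      (mul_pos_iff_of_pos_left (show 0 < 1 - x by linarith)).mp
        (by rw [a6]; exact mul_pos (by linarith) (by linarith))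
    have a8 : U (k + 2) (-1 : ℝ) (k + 1) + U (k + 3) (-1 : ℝ) (k + 2) = 1 := by
      linear_combination (1 / 2) * a3 + (1 / 2) * a4
    linarith
  induction r using Nat.twoStepInduction with
  | zero => simp only [U_succ, U_zero, zero_add]; norm_num; linarith
  | one => simpa [U_zero] using step 0
  | more k h _ => exact h.trans (step (k + 1))

lemma im_case {w : ℂ} (hw : ‖w‖ < 1) (hy : w.im ≠ 0) (n r : ℕ) :
    0 < (U (n + r + 3) w (r + 1)).im / w.im := by
  refine pascal_pos (fun m r => (U m w r).im / w.im)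
    (fun m r => by simp only [U_pascal, Complex.add_im]; ring)
    (fun m => by simp [U_zero]) (fun r => ?_) n r
  set ρ := ‖w‖ with hρ
  have hρ0 : 0 ≤ ρ := norm_nonneg _
  set s : ℕ → ℝ := fun j => (w ^ j).im / w.im with hs
  have hsq : ρ ^ 2 = w.re ^ 2 + w.im ^ 2 := by
    rw [hρ, Complex.sq_norm, Complex.normSq_apply]; ring
  have hrec : ∀ j, s (j + 2) = 2 * w.re * s (j + 1) - ρ ^ 2 * s j := by
    intro j
    simp only [hs, hsq, pow_succ, Complex.mul_im, Complex.mul_re]
    field_simp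
    ring
  have hb : ∀ j, |s (j + 1)| ≤ (j + 1) * ρ ^ j := by
    intro j
    induction j with
    | zero => simp [hs, hy]
    | succ j ih =>
      have e : s (j + 1 + 1) = s (j + 1) * w.re + (w ^ (j + 1)).re := by
        simp only [hs, pow_succ _ (j + 1), Complex.mul_im]; field_simp; ring
      have b1 : |(w ^ (j + 1)).re| ≤ ρ ^ (j + 1) := by
        rw [hρ, ← norm_pow]; exact Complex.abs_re_le_norm _
      have b2 : |s (j + 1) * w.re| ≤ (j + 1) * ρ ^ j * ρ := by
        rw [abs_mul]; exact mul_le_mul ih (Complex.abs_re_le_norm _) (abs_nonneg _) (by positivity)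
      rw [e]
      refine (abs_add_le _ _).trans ?_
      push_cast
      rw [pow_succ ρ] at b1 ⊢
      linarith
  set D := 1 - 2 * w.re + ρ ^ 2 with hD
  have hD0 : 0 < D := by
    have := (abs_le.mp (Complex.abs_re_le_norm w)).2
    nlinarith
  have hg : ∀ k : ℕ, (k + 2) * ρ ^ (k + 1) - (k + 1) * ρ ^ (k + 2) ≤ 1 - (1 - ρ) ^ 2 := by
    intro k
    induction k with
    | zero => simp; nlinarith
    | succ k ih =>
      have : 0 ≤ (k + 2) * ρ ^ (k + 1) * (1 - ρ) ^ 2 := by positivity
      push_cast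
      ring_nf at this ih ⊢
      linarith
  have key : ∀ k : ℕ, ∃ R : ℝ,
      D * ((U (k + 1) w k).im / w.im) = 1 - s (k + 1) + ρ ^ 2 * s k ∧
      D * ((U (k + 2) w k).im / w.im) = k + 1 - s (k + 1) - (1 - ρ ^ 2) * ((U (k + 1) w k).im / w.im)
      ∧ (U (k + 1) w k).im / w.im ≤ R ∧
      (k + 1) * ρ ^ k + (1 - ρ ^ 2) * R + k * (1 - ρ) ^ 2 ≤ k + 1 := by
    intro k
    induction k with
    | zero => exact ⟨0, by simp [U_zero, hs, hy], by simp [U_zero, hs, hy], by simp [U_zero], by simp⟩
    | succ k ih =>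
      obtain ⟨R, h1, h2, h3, h4⟩ := ih
      have e1 : (U (k + 1 + 1) w (k + 1)).im / w.im = s (k + 1) + (U (k + 1) w k).im / w.im := by
        rw [U_pascal, U_self, Complex.add_im, add_div]
      have e2 : (U (k + 1 + 2) w (k + 1)).im / w.im =
          (U (k + 1 + 1) w (k + 1)).im / w.im + (U (k + 2) w k).im / w.im := by
        rw [U_pascal (k + 2), Complex.add_im, add_div]
      have h5 := hrec k
      refine ⟨R + (k + 1) * ρ ^ k, ?_, ?_, ?_, ?_⟩
      · rw [e1]; linear_combination h1 + h5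
      · rw [e2, e1]; push_cast; linear_combination h1 + h2 + h5
      · rw [e1]; linarith [(abs_le.mp (hb k)).2]
      · have := hg k
        push_cast
        ring_nf at this h4 ⊢
        linarith
  obtain ⟨R, -, h2, h3, h4⟩ := key (r + 1)
  have h5 := (abs_le.mp (hb (r + 1))).2
  have h6 : 0 ≤ 1 - ρ ^ 2 := by nlinarith
  have h7 := mul_le_mul_of_nonneg_left h3 h6
  have h8 : 0 < ((r + 1 : ℕ) : ℝ) * (1 - ρ) ^ 2 := by
    have : 0 < 1 - ρ := by linarith
    positivity
  exact (mul_pos_iff_of_pos_left hD0).mp (by rw [h2]; linarith)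

end algebra

section count
variable {α : Type} [DecidableEq α]

open Classical in
noncomputable def cnt (E : Finset α) (r : ℕ) (P : Finset α → Prop) : ℕ :=
  ((powersetCard r E).filter P).card

def Aug (E : Finset α) (r : ℕ) (P : Finset α → Prop) : Prop :=
  ∀ S ⊆ E, S.card + 1 = r → ∀ B ⊆ E, B.card = r → P B → ∃ y ∈ B, y ∉ S ∧ P (insert y S)

def CF (E : Finset α) (r : ℕ) (P : Finset α → Prop) : Prop :=
  ∀ x ∈ E, ∃ B ⊆ E, B.card = r ∧ P B ∧ x ∉ B

lemma cnt_insert {E : Finset α} {e : α} (he : e ∉ E) (r : ℕ) (P : Finset α → Prop) :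
    cnt (insert e E) (r + 1) P = cnt E (r + 1) P + cnt E r (fun S => P (insert e S)) := by
  classical
  unfold cnt
  rw [powersetCard_succ_insert he, filter_union, card_union_of_disjoint, filter_image,
    card_image_of_injOn]
  · intro S hS T hT h
    have h1 : e ∉ S := fun h' => he ((mem_powersetCard.mp (mem_filter.mp hS).1).1 h')
    have h2 : e ∉ T := fun h' => he ((mem_powersetCard.mp (mem_filter.mp hT).1).1 h')
    rw [← erase_insert h1, ← erase_insert h2, h]
  · refine disjoint_filter_filter (disjoint_left.mpr fun S hS hS' => ?_)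
    obtain ⟨T, -, rfl⟩ := mem_image.mp hS'
    exact he ((mem_powersetCard.mp hS).1 (mem_insert_self _ _))

lemma cnt_all {E : Finset α} {r : ℕ} {P : Finset α → Prop} (h : ∀ S ⊆ E, S.card = r → P S) :
    cnt E r P = E.card.choose r := by
  classical
  unfold cnt
  rw [filter_true_of_mem fun S hS => h S (mem_powersetCard.mp hS).1 (mem_powersetCard.mp hS).2,
    card_powersetCard]

lemma Aug.del {E : Finset α} {e : α} {r : ℕ} {P : Finset α → Prop} (h : Aug (insert e E) r P) :
    Aug E r P := fun S hS h1 B hB => h S (hS.trans (subset_insert _ _)) h1 B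
      (hB.trans (subset_insert _ _))

lemma Aug.con {E : Finset α} {e : α} (he : e ∉ E) {r : ℕ} {P : Finset α → Prop}
    (h : Aug (insert e E) (r + 1) P) : Aug E r (fun S => P (insert e S)) := by
  intro S hS h1 B hB h2 hP
  obtain ⟨y, hy, hyS, hy'⟩ := h (insert e S) (insert_subset_insert _ hS)
    (by rw [card_insert_of_notMem fun h' => he (hS h'), h1]) (insert e B) (insert_subset_insert _ hB)
    (by rw [card_insert_of_notMem fun h' => he (hB h'), h2]) hP
  simp only [mem_insert, not_or] at hy hyS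
  exact ⟨y, hy.resolve_left hyS.1, hyS.2, by rwa [insert_comm] at hy'⟩

lemma CF.con {E : Finset α} {e : α} (he : e ∉ E) {r : ℕ} {P : Finset α → Prop}
    (h : Aug (insert e E) (r + 2) P) (hc : CF (insert e E) (r + 2) P) :
    CF E (r + 1) (fun S => P (insert e S)) := by
  intro x hx
  obtain ⟨B, hB, h1, hP, hxB⟩ := hc x (mem_insert_of_mem hx)
  obtain ⟨S, hS, h2⟩ := exists_subset_card_eq (s := B.erase e) (n := r)
    (by have := pred_card_le_card_erase (s := B) (a := e); omega)
  have heS : e ∉ S := fun h' => notMem_erase e B (hS h')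
  have hSE : S ⊆ E := hS.trans (subset_insert_iff.mp hB)
  obtain ⟨y, hy, hyS, hy'⟩ := h (insert e S) (insert_subset_insert _ hSE)
    (by rw [card_insert_of_notMem heS, h2]) B hB h1 hP
  simp only [mem_insert, not_or] at hyS
  refine ⟨insert y S, insert_subset ((mem_insert.mp (hB hy)).resolve_left hyS.1) hSE,
    by rw [card_insert_of_notMem hyS.2, h2], by rwa [insert_comm] at hy', ?_⟩
  simp only [mem_insert, not_or]
  exact ⟨fun h' => hxB (h' ▸ hy), fun h' => hxB (mem_of_mem_erase (hS h'))⟩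

lemma bc (n : ℕ) : ∀ (E : Finset α) (r : ℕ) (P : Finset α → Prop), E.card = n → r ≤ n →
    Aug E r P → CF E r P → 0 ≤ (cnt E r P : ℝ) + A n (-1 : ℝ) r := by
  classical
  induction n using Nat.strong_induction_on with
  | _ n ih =>
  intro E r P hn hr ha hc
  rcases r with _ | r
  · simp [A]
  obtain ⟨e, he⟩ := card_pos.mp (show 0 < E.card by omega)
  rcases r with _ | s
  · obtain ⟨B, hB, h1, hP, -⟩ := hc e he
    obtain ⟨y, hy⟩ := card_pos.mp (show 0 < B.card by omega)
    obtain ⟨B', hB', h1', hP', hy'⟩ := hc y (hB hy)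
    have : 1 < cnt E (0 + 1) P := one_lt_card.mpr
      ⟨B, mem_filter.mpr ⟨mem_powersetCard.mpr ⟨hB, h1⟩, hP⟩, B',
        mem_filter.mpr ⟨mem_powersetCard.mpr ⟨hB', h1'⟩, hP'⟩, fun h => hy' (h ▸ hy)⟩
    have : (2 : ℝ) ≤ cnt E (0 + 1) P := by exact_mod_cast this
    simp only [A]; norm_num at this ⊢; linarith
  obtain ⟨E', he', rfl⟩ : ∃ E', e ∉ E' ∧ E = insert e E' :=
    ⟨E.erase e, notMem_erase _ _, (insert_erase he).symm⟩
  rw [card_insert_of_notMem he'] at hn
  subst hn
  obtain ⟨B₁, hB₁, h1, hP₁, he₁⟩ := hc e he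
  have hB₁' : B₁ ⊆ E' := (subset_insert_iff_of_notMem he₁).mp hB₁
  rw [cnt_insert he', A_pascal]
  push_cast
  by_cases hc' : CF E' (s + 2) P
  · have i1 := ih _ (by omega) E' _ P rfl (h1 ▸ card_le_card hB₁') ha.del hc'
    have i2 := ih _ (by omega) E' _ _ rfl (by omega) (ha.con he') (hc.con he' ha)
    linarith
  unfold CF at hc'
  push Not at hc'
  obtain ⟨g, hg, hf⟩ := hc'
  obtain ⟨H, hH, rfl⟩ : ∃ H, g ∉ H ∧ E' = insert g H :=
    ⟨E'.erase g, notMem_erase _ _, (insert_erase hg).symm⟩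
  obtain ⟨B₂, hB₂, h2, hP₂, hg₂⟩ := hc g (mem_insert_of_mem hg)
  have c1 : cnt H (s + 1) (fun S => P (insert g S)) = H.card.choose (s + 1) := by
    refine cnt_all fun S hS hs => ?_
    have hS' : S ⊆ insert g H := hS.trans (subset_insert _ _)
    obtain ⟨y, hy, hyS, hP⟩ := ha S (hS'.trans (subset_insert _ _)) (by omega) B₁ hB₁ h1 hP₁
    have := hf _ (insert_subset (hB₁' hy) hS') (by rw [card_insert_of_notMem hyS, hs]) hP
    rwa [(mem_insert.mp this).resolve_right fun h => hH (hS h)]
  have c2 : cnt H (s + 1) (fun S => P (insert e S)) = H.card.choose (s + 1) := by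
    refine cnt_all fun S hS hs => ?_
    have hS' : S ⊆ insert g H := hS.trans (subset_insert _ _)
    obtain ⟨y, hy, hyS, hP⟩ := ha S (hS'.trans (subset_insert _ _)) (by omega) B₂ hB₂ h2 hP₂
    rcases mem_insert.mp (hB₂ hy) with rfl | h
    · exact hP
    · have := hf _ (insert_subset h hS') (by rw [card_insert_of_notMem hyS, hs]) hP
      exact absurd (((mem_insert.mp this).resolve_right fun h => hH (hS h)) ▸ hy) hg₂
  rw [card_insert_of_notMem hH] at ih hr ⊢
  have i3 : 0 ≤ (cnt H s fun S => P (insert e (insert g S)) : ℝ) + A H.card (-1 : ℝ) s := by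
    rcases s with _ | s
    · simp [A]
    · exact ih _ (by omega) H _ _ rfl (by omega) ((ha.con he').con hH)
        ((hc.con he' ha).con hH (ha.con he'))
  rw [cnt_insert hH, cnt_insert hH, c1, c2, A_pascal, A_pascal, A]
  push_cast
  linarith [Nat.cast_nonneg (α := ℝ) (cnt H (s + 1 + 1) P)]

lemma main_cf {E : Finset α} {r : ℕ} {P : Finset α → Prop} (ha : Aug E r P) (hc : CF E r P)
    (hb : ∃ B ⊆ E, B.card = r ∧ P B) {w : ℂ} (hw : ‖w‖ < 1) :
    (cnt E r P : ℂ) + A E.card w r ≠ 0 := by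
  classical
  obtain ⟨B, hB, h1, hP⟩ := hb
  rcases r with _ | r
  · have : cnt E 0 P ≠ 0 :=
      card_ne_zero.mpr ⟨B, mem_filter.mpr ⟨mem_powersetCard.mpr ⟨hB, h1⟩, hP⟩⟩
    simpa [A] using this
  obtain ⟨x, hx⟩ := card_pos.mp (show 0 < B.card by omega)
  obtain ⟨B', hB', h1', -, hx'⟩ := hc x (hB hx)
  have hlt : r + 1 < E.card := h1' ▸ card_lt_card ⟨hB', fun h => hx' (h (hB hx))⟩
  by_cases hn : E.card = r + 2
  · have : cnt E (r + 1) P = E.card.choose (r + 1) := by
      refine cnt_all fun S hS hs => ?_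
      obtain ⟨y, hy, hyS⟩ := exists_mem_notMem_of_card_lt_card (show S.card < E.card by omega)
      obtain ⟨T, hT, h2, hP', hy'⟩ := hc y hy
      have e : ∀ T ⊆ E, T.card = r + 1 → y ∉ T → T = E.erase y := fun T hT h2 hy' =>
        eq_of_subset_of_card_le (subset_erase.mpr ⟨hT, hy'⟩) (by rw [card_erase_of_mem hy]; omega)
      rwa [e S hS hs hyS, ← e T hT h2 hy']
    rw [this, add_comm, hn]
    intro h0
    have h2 := U_one w (r + 1)
    rw [U, h0, mul_zero, eq_comm, sub_eq_zero] at h2
    have := congrArg norm h2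
    rw [norm_one, norm_pow] at this
    exact (pow_lt_one₀ (norm_nonneg _) hw (by omega)).ne' this
  obtain ⟨n, hn'⟩ : ∃ n, E.card = n + r + 3 := ⟨E.card - r - 3, by omega⟩
  have h3 := bc _ E _ P hn' (by omega) ha hc
  rw [hn']
  intro h0
  by_cases hy : w.im = 0
  · obtain ⟨x, rfl⟩ : ∃ x : ℝ, w = x := ⟨w.re, Complex.ext rfl (by simpa using hy)⟩
    rw [Complex.norm_real, Real.norm_eq_abs, abs_lt] at hw
    have h4 := real_case hw.1 hw.2 n r
    rw [← A_cast] at h0
    have h5 : (cnt E (r + 1) P : ℝ) + A (n + r + 3) x (r + 1) = 0 := by exact_mod_cast h0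
    simp only [U] at h4
    linarith
  · have h4 := im_case hw hy n r
    have := congrArg Complex.im h0
    simp only [U, Complex.add_im, Complex.natCast_im, zero_add, Complex.zero_im] at this h4
    simp [this] at h4

lemma main {E : Finset α} {r : ℕ} {P : Finset α → Prop} (ha : Aug E r P)
    (hb : ∃ B ⊆ E, B.card = r ∧ P B) {w : ℂ} (hw : ‖w‖ < 1) (hw0 : w ≠ 0) :
    (cnt E r P : ℂ) + A E.card w r ≠ 0 := by
  classical
  by_cases hc : CF E r P
  · exact main_cf ha hc hb hw
  unfold CF at hc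
  push Not at hc
  obtain ⟨g, hg, hf⟩ := hc
  obtain ⟨B, hB, h1, hP⟩ := hb
  obtain ⟨H, hH, rfl⟩ : ∃ H, g ∉ H ∧ E = insert g H :=
    ⟨E.erase g, notMem_erase _ _, (insert_erase hg).symm⟩
  obtain ⟨s, rfl⟩ : ∃ s, r = s + 1 :=
    ⟨r - 1, by have := card_pos.mpr ⟨g, hf B hB h1 hP⟩; omega⟩
  have c0 : cnt H (s + 1) P = 0 := by
    refine card_eq_zero.mpr (filter_false_of_mem fun S hS hP' => ?_)
    obtain ⟨h2, h3⟩ := mem_powersetCard.mp hS
    exact hH (h2 (hf S (h2.trans (subset_insert _ _)) h3 hP'))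
  have c1 : cnt H s (fun S => P (insert g S)) = H.card.choose s := by
    refine cnt_all fun S hS hs => ?_
    have hS' : S ⊆ insert g H := hS.trans (subset_insert _ _)
    obtain ⟨y, hy, hyS, hP'⟩ := ha S hS' (by omega) B hB h1 hP
    have := hf _ (insert_subset (hB hy) hS') (by rw [card_insert_of_notMem hyS, hs]) hP'
    rwa [(mem_insert.mp this).resolve_right fun h => hH (hS h)]
  have hs : s ≤ H.card := by
    have := card_le_card hB
    rw [card_insert_of_notMem hH] at this; omega
  rw [cnt_insert hH, c0, c1, card_insert_of_notMem hH, A_pascal, A]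
  have hU : U H.card w s ≠ 0 := by
    rcases hs.eq_or_lt with h | h
    · rw [← h, U_self]; exact pow_ne_zero _ hw0
    · have := main_cf (E := H) (r := s) (P := fun _ => True) (fun S _ h2 B _ h3 _ => by
        obtain ⟨y, hy, hyS⟩ := exists_mem_notMem_of_card_lt_card (show S.card < B.card by omega)
        exact ⟨y, hy, hyS, trivial⟩) (fun x hx => by
        obtain ⟨S, hS, h2⟩ := exists_subset_card_eq (s := H.erase x) (n := s)
          (by rw [card_erase_of_mem hx]; omega)
        exact ⟨S, hS.trans (erase_subset _ _), h2, trivial, fun h' => notMem_erase _ _ (hS h')⟩)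
        (by obtain ⟨S, hS, h2⟩ := exists_subset_card_eq hs; exact ⟨S, hS, h2, trivial⟩) hw
      rwa [cnt_all (fun _ _ _ => trivial), add_comm] at this
  intro h0
  apply mul_ne_zero hw0 hU
  rw [U]
  push_cast at h0
  linear_combination h0

end count

lemma A_sum (m : ℕ) {q : ℂ} (hq : q ≠ 0) (r : ℕ) (hr : r ≤ m) :
    ∑ k ∈ range r, (m.choose k : ℂ) * q ^ k * (1 - q) ^ (m - k) =
      q ^ r * (1 - q) ^ (m - r) * A m q⁻¹ r := by
  induction r with
  | zero => simp [A]
  | succ r ih =>
    rw [sum_range_succ, ih (by omega), A, show m - r = m - (r + 1) + 1 by omega]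
    field_simp
    ring

theorem result (α : Type) (M : Matroid α) [M.Finite] (hM : Paving M) (q : ℂ) (hq : Rel M q = 0) :
    ‖q‖ ≤ 1 := by
  classical
  by_contra hq1
  push Not at hq1
  have hq0 : q ≠ 0 := by rintro rfl; norm_num at hq1
  have hq2 : 1 - q ≠ 0 := fun h => by rw [← sub_eq_zero.mp h] at hq1; simp at hq1
  set E := M.ground_finite.toFinset with hE
  have hEc : (E : Set α) = M.E := Set.Finite.coe_toFinset _
  set P : Finset α → Prop := fun B => M.Indep B with hP
  have hm : M.E.ncard = E.card := by rw [← hEc, Set.ncard_coe_finset]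
  have hf : ∀ k, f M k = cnt E k P := by
    intro k
    unfold f cnt
    rw [← Set.ncard_coe_finset, ← Set.ncard_image_of_injective _ coe_injective]
    congr 1
    ext I
    simp only [Set.mem_ofPred_eq, Set.mem_image, mem_coe, mem_filter, mem_powersetCard]
    constructor
    · rintro ⟨h1, h2⟩
      lift I to Finset α using h1.finite
      exact ⟨I, ⟨⟨by rw [← coe_subset, hEc]; exact h1.subset_ground, by simpa using h2⟩, h1⟩, rfl⟩
    · rintro ⟨J, ⟨⟨-, h2⟩, h3⟩, rfl⟩
      exact ⟨h3, by simpa using h2⟩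
  obtain ⟨B, hB⟩ := M.exists_isBase
  lift B to Finset α using hB.finite
  have hr : M.eRank = B.card := by rw [← hB.encard_eq_eRank, Set.encard_coe_eq_coe_finsetCard]
  have hBE : B ⊆ E := by rw [← coe_subset, hEc]; exact hB.subset_ground
  have hind : ∀ S ⊆ E, S.card < B.card → P S := by
    intro S hS h1
    by_contra h
    obtain ⟨C, hC, hC'⟩ := Matroid.Dep.exists_isCircuit_subset (M := M) (X := S)
      ⟨h, by rw [← hEc]; exact_mod_cast hS⟩
    have := (hM C hC').trans (Set.encard_le_encard hC)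
    rw [hr, Set.encard_coe_eq_coe_finsetCard] at this
    exact absurd (by exact_mod_cast this) (not_le.mpr h1)
  have ha : Aug E B.card P := by
    intro S hS h1 T _ h2 hT
    obtain ⟨y, hy, hy'⟩ := Matroid.Indep.augment (hind S hS (by omega)) hT
      (by simp only [Set.encard_coe_eq_coe_finsetCard]; exact_mod_cast (by omega))
    exact ⟨y, hy.1, hy.2, by simpa [hP] using hy'⟩
  have hw : ‖q⁻¹‖ < 1 := by rw [norm_inv]; exact inv_lt_one_of_one_lt₀ hq1
  refine mul_ne_zero (mul_ne_zero (pow_ne_zero B.card hq0) (pow_ne_zero (E.card - B.card) hq2))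
    (main ha ⟨B, hBE, rfl, hB.indep⟩ hw (inv_ne_zero hq0)) ?_
  rw [mul_add, ← A_sum _ hq0 _ (card_le_card hBE), ← hq, Rel, hr, ENat.toNat_natCast, sum_range_succ,
    hm, hf, add_comm]
  congr 1
  · refine sum_congr rfl fun k hk => ?_
    rw [hf, cnt_all fun S hS h => hind S hS (h ▸ mem_range.mp hk)]
  · ring

end Pool.Agent.Results.MP_1ae31d_co.Yes
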